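import Pool.Agent.helper60.XP.SpecD

set_option autoImplicit false

open Complex Metric Set Filter Topology MeasureTheory

noncomputable section

namespace XPD

theorem DGB (hDEG : DEG_stmt) (hDIT : DIT_stmt) (hSWZ : SWZ_stmt) : DGB_stmt := by
  intro n k _ f b g μ e L hD hE i R hS
  obtain ⟨-, d2, d3, -, -, d6, -, -⟩ := hDIT k f b hD.cyc
  have hG := hDEG k f b g hD.cyc hE i
  set ρ := PPS.rho f b with hρ
  have hdiff : Differentiable ℂ (itf f k) := d3 k
  have hderiv : ∀ x : ℂ, HasDerivAt (fun x => itf f k (b i + x) - b i - ρ * x)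
      (deriv (itf f k) (b i + x) - ρ) x := by
    intro x
    have h1 : HasDerivAt (fun x => itf f k (b i + x)) (deriv (itf f k) (b i + x)) x :=
      HasDerivAt.comp_const_add (b i) x (hdiff (b i + x)).hasDerivAt
    have h2 : HasDerivAt (fun x : ℂ => ρ * x) ρ x := by
      simpa using (hasDerivAt_id x).const_mul ρ
    exact (h1.sub_const (b i)).sub h2
  have hd1 : deriv (fun x => itf f k (b i + x) - b i - ρ * x) =
      fun x => deriv (itf f k) (b i + x) - ρ := funext fun x => (hderiv x).deriv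
  have hdd : Differentiable ℂ (deriv (itf f k)) := by
    have := (hdiff.contDiff (n := 2)).differentiable_deriv_two
    exact this
  have hd2 : deriv (deriv (fun x => itf f k (b i + x) - b i - ρ * x)) 0 =
      deriv (deriv (itf f k)) (b i) := by
    rw [hd1]
    have h1 : HasDerivAt (fun x => deriv (itf f k) (b i + x)) (deriv (deriv (itf f k)) (b i + 0)) 0 :=
      HasDerivAt.comp_const_add (b i) 0 (hdd (b i + 0)).hasDerivAt
    have h2 := (h1.sub_const ρ).deriv
    rw [add_zero] at h2
    exact h2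
  have hR := hS.pos
  have he := hD.e0
  have key := (hSWZ (fun x => itf f k (b i + x) - b i - ρ * x) R (2 * e) hR (by linarith)
    (fun x _ => (hderiv x).differentiableAt.differentiableWithinAt)
    (by simp [d2 i]) (by rw [hd1]; simp [d6 i, hρ]) (by
      intro x hx
      have h1 := hS.near x hx
      have h2 : itf f k (b i + x) - b i - ρ * x =
        (itf f k (b i + x) - b i - μ * x) - (ρ - μ) * x := by ring
      rw [h2]
      refine (norm_sub_le _ _).trans ?_
      rw [norm_mul]
      have h3 := mul_le_mul_of_nonneg_right hD.rm (norm_nonneg x)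
      have h4 : 0 ≤ e * ‖x‖ := mul_nonneg he.le (norm_nonneg x)
      nlinarith)).2
  rw [hd2, hG, norm_mul, norm_neg, norm_mul] at key
  have h5 : e ≤ ‖μ - 1‖ := hD.me.le
  have h6 : ‖μ - 1‖ ≤ ‖ρ - 1‖ + e / 10 := by
    have : μ - 1 = (ρ - 1) - (ρ - μ) := by ring
    rw [this]
    exact (norm_sub_le _ _).trans (by linarith [hD.rm])
  have h7 : 9 / 10 * e ≤ ‖ρ‖ * ‖ρ - 1‖ := by
    have h8 : 9 / 10 * e ≤ ‖ρ - 1‖ := by linarith
    have h9 := hD.rho1
    nlinarith [norm_nonneg (ρ - 1)]
  have h10 : 9 / 10 * e * ‖g i‖ ≤ 2 * (2 * e) / R :=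
    (mul_le_mul_of_nonneg_right h7 (norm_nonneg _)).trans key
  rw [le_div_iff₀ hR] at h10
  have h11 : e * (9 / 10 * (‖g i‖ * R)) ≤ e * 4 := by nlinarith
  have h12 := le_of_mul_le_mul_left h11 he
  linarith

end XPD
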