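import Pool.Agent.helper74.XP.SpecP

/-!
# Module SEL of project xp
-/

set_option autoImplicit false

open Complex Metric Set Filter Topology MeasureTheory MPS PPS Pool.Agent.helper16.Multibrot

noncomputable section

namespace XPP

theorem SEL_span {e : ℕ} {V : Type*} [AddCommGroup V] [Module ℂ V]
    (b : Module.Basis (Fin e) ℂ V) (u : ℕ → V) (C : ℝ) (hC : ∀ i l, ‖b.repr (u i) l‖ ≤ C)
    (t₀ : Fin e → ℕ) (ht₀ : b.det (u ∘ t₀) ≠ 0) :
    ∃ t : Fin e → ℕ, Function.Injective t ∧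
      ∀ i, ∃ a : Fin e → ℂ, u i = ∑ j, a j • u (t j) ∧ ∀ j, ‖a j‖ ≤ 2 := by
  classical
  have hb : ∀ t : Fin e → ℕ, ‖b.det (u ∘ t)‖ ≤ (Nat.factorial e : ℝ) * C ^ e := by
    intro t
    rw [Module.Basis.det_apply]
    have := Matrix.det_le (A := b.toMatrix (u ∘ t))
      (abv := (NormedField.toAbsoluteValue ℂ)) (x := C) (by
        intro i j
        rw [Module.Basis.toMatrix_apply]
        exact hC _ _)
    rw [Fintype.card_fin, nsmul_eq_mul] at this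
    exact this
  set D : ℝ := ⨆ t : Fin e → ℕ, ‖b.det (u ∘ t)‖ with hD
  have hbd : BddAbove (Set.range fun t : Fin e → ℕ => ‖b.det (u ∘ t)‖) :=
    ⟨_, by rintro _ ⟨t, rfl⟩; exact hb t⟩
  have hle : ∀ t : Fin e → ℕ, ‖b.det (u ∘ t)‖ ≤ D := fun t => le_ciSup hbd t
  have hDpos : 0 < D := lt_of_lt_of_le (norm_pos_iff.mpr ht₀) (hle t₀)
  obtain ⟨t, ht⟩ : ∃ t : Fin e → ℕ, D / 2 < ‖b.det (u ∘ t)‖ :=
    exists_lt_of_lt_ciSup (by linarith)
  have hdet : b.det (u ∘ t) ≠ 0 := by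
    intro h
    rw [h, norm_zero] at ht
    linarith
  refine ⟨t, ?_, ?_⟩
  · intro j j' hj
    by_contra hne
    apply hdet
    rw [Module.Basis.det_apply]
    refine Matrix.det_zero_of_column_eq hne ?_
    intro l
    simp [Module.Basis.toMatrix_apply, hj]
  · intro i
    set A := b.toMatrix (u ∘ t) with hA
    have hAd : A.det = b.det (u ∘ t) := (Module.Basis.det_apply _ _).symm
    have hcr : ∀ j, Matrix.cramer A (b.repr (u i)) j = b.det (u ∘ (Function.update t j i)) := by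
      intro j
      rw [Matrix.cramer_apply, Module.Basis.det_apply, hA]
      congr 1
      rw [← Module.Basis.toMatrix_update]
      congr 1
      ext j'
      by_cases h : j' = j
      · subst h; simp
      · simp [Function.update_of_ne h]
    refine ⟨fun j => Matrix.cramer A (b.repr (u i)) j / A.det, ?_, ?_⟩
    · apply b.ext_elem
      intro l
      have h1 := congrFun (Matrix.mulVec_cramer A (b.repr (u i))) l
      rw [Matrix.mulVec, dotProduct, Pi.smul_apply, smul_eq_mul] at h1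
      rw [map_sum, Finset.sum_apply']
      have h2 : ∀ j, (b.repr ((Matrix.cramer A (b.repr (u i)) j / A.det) • u (t j))) l =
          A l j * Matrix.cramer A (b.repr (u i)) j / A.det := by
        intro j
        rw [map_smul, Finsupp.smul_apply, smul_eq_mul, hA, Module.Basis.toMatrix_apply]
        simp only [Function.comp]
        ring
      rw [Finset.sum_congr rfl (fun j _ => h2 j), ← Finset.sum_div, h1, hAd]
      field_simp
    · intro j
      simp only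
      rw [hcr j, hAd, norm_div, div_le_iff₀ (norm_pos_iff.mpr hdet)]
      have := hle (Function.update t j i)
      linarith

theorem SEL_pig (Λ : ℕ → ℝ) (δ M : ℝ) (hδ : 0 < δ) (h : ∀ i, δ ≤ Λ i ∧ Λ i ≤ M) :
   ∃ ϕ : ℕ → ℕ, StrictMono ϕ ∧ ∀ i j, Λ (ϕ j) ≤ 2 * Λ (ϕ i) := by
  classical
  have hfl : ∀ i, ⌊Λ i / δ⌋₊ ≤ ⌊M / δ⌋₊ := fun i =>
    Nat.floor_le_floor (div_le_div_of_nonneg_right (h i).2 hδ.le)
  let f : ℕ → Fin (⌊M / δ⌋₊ + 1) := fun i => ⟨⌊Λ i / δ⌋₊, Nat.lt_succ_of_le (hfl i)⟩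
  obtain ⟨y, hy⟩ := Finite.exists_infinite_fiber f
  have hy' : (f ⁻¹' {y}).Infinite := Set.infinite_coe_iff.mp hy
  obtain ⟨ϕ, hϕ, hP⟩ := extraction_of_frequently_atTop (P := fun i => f i = y)
    (Nat.frequently_atTop_iff_infinite.mpr hy')
  refine ⟨ϕ, hϕ, ?_⟩
  intro i j
  have e : ⌊Λ (ϕ i) / δ⌋₊ = ⌊Λ (ϕ j) / δ⌋₊ := by
    have := (hP i).trans (hP j).symm
    exact congrArg Fin.val this
  have h1 : Λ (ϕ j) / δ < ⌊Λ (ϕ j) / δ⌋₊ + 1 := Nat.lt_floor_add_one _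
  have h2 : (⌊Λ (ϕ i) / δ⌋₊ : ℝ) ≤ Λ (ϕ i) / δ := Nat.floor_le (div_nonneg (hδ.le.trans (h _).1) hδ.le)
  rw [e] at h2
  have h3 : 1 ≤ Λ (ϕ i) / δ := by
    rw [le_div_iff₀ hδ]
    linarith [(h (ϕ i)).1]
  have h4 : Λ (ϕ j) / δ ≤ 2 * (Λ (ϕ i) / δ) := by linarith
  rw [div_le_iff₀ hδ] at h4
  calc Λ (ϕ j) ≤ 2 * (Λ (ϕ i) / δ) * δ := h4
    _ = 2 * Λ (ϕ i) := by field_simp

theorem SEL_bd {d : ℕ} (v : ℕ → (Fin d → ℂ)) (M : ℝ) (hM : ∀ i m, ‖v i m‖ ≤ M) :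
    ∃ C : ℝ, ∀ i l, ‖(Module.finBasis ℂ (Submodule.span ℂ (Set.range v))).repr (⟨v i, Submodule.subset_span ⟨i, rfl⟩⟩) l‖ ≤ C := by
  classical
  set V := Submodule.span ℂ (Set.range v)
  set b := Module.finBasis ℂ V
  obtain ⟨C, hC⟩ : ∃ C : ℝ, ∀ x : V, ‖b.equivFun x‖ ≤ C * ‖x‖ := by
    let L : V →L[ℂ] (Fin (Module.finrank ℂ V) → ℂ) := LinearMap.toContinuousLinearMap (b.equivFun : V →ₗ[ℂ] _)
    exact ⟨‖L‖, fun x => L.le_opNorm x⟩
  refine ⟨|C| * max M 0, fun i l => ?_⟩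
  have h1 := hC (⟨v i, Submodule.subset_span ⟨i, rfl⟩⟩)
  have h2 := norm_le_pi_norm (b.equivFun (⟨v i, Submodule.subset_span ⟨i, rfl⟩⟩ : V)) l
  have h3 : ‖(⟨v i, Submodule.subset_span ⟨i, rfl⟩⟩ : V)‖ ≤ max M 0 := by
    show ‖v i‖ ≤ _
    rw [pi_norm_le_iff_of_nonneg (le_max_right _ _)]
    intro m
    exact (hM i m).trans (le_max_left _ _)
  refine (h2.trans h1).trans ?_
  exact mul_le_mul (le_abs_self C) h3 (norm_nonneg _) (abs_nonneg _)

theorem SEL_det {d : ℕ} (v : ℕ → (Fin d → ℂ)) :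
    ∃ t₀ : Fin (Module.finrank ℂ (Submodule.span ℂ (Set.range v))) → ℕ, (Module.finBasis ℂ (Submodule.span ℂ (Set.range v))).det ((fun i => (⟨v i, Submodule.subset_span ⟨i, rfl⟩⟩ : Submodule.span ℂ (Set.range v))) ∘ t₀) ≠ 0 := by
  classical
  obtain ⟨f, hf1, hf2, hf3⟩ := Submodule.exists_fun_fin_finrank_span_eq ℂ (Set.range v)
  choose t ht using hf1
  refine ⟨t, ?_⟩
  rw [← isUnit_iff_ne_zero, ← Module.Basis.is_basis_iff_det]
  have h1 : LinearIndependent ℂ ((fun i => (⟨v i, Submodule.subset_span ⟨i, rfl⟩⟩ : Submodule.span ℂ (Set.range v))) ∘ t) := by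
    apply LinearIndependent.of_comp (Submodule.span ℂ (Set.range v)).subtype
    have e1 : ((Submodule.span ℂ (Set.range v)).subtype ∘
        ((fun i => (⟨v i, Submodule.subset_span ⟨i, rfl⟩⟩ : Submodule.span ℂ (Set.range v))) ∘ t)) = f := by
      funext j
      exact ht j
    rw [e1]
    exact hf3
  refine ⟨h1, ?_⟩
  apply h1.span_eq_top_of_card_eq_finrank'
  simp

theorem SEL : SEL_stmt := by
  classical
  intro d S Λ δ M hδ h
  -- pigeonhole
  obtain ⟨ϕ, hϕ, hΛ⟩ : ∃ ϕ : ℕ → ℕ, StrictMono ϕ ∧ ∀ i j, Λ (ϕ j) ≤ 2 * Λ (ϕ i) := by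
    exact SEL_pig Λ δ M hδ (fun i => ⟨(h i).1, (h i).2.1⟩)
  -- vectors
  set v : ℕ → (Fin d → ℂ) := fun i m => S (ϕ i) m with hv
  set V := Submodule.span ℂ (Set.range v) with hV
  set e := Module.finrank ℂ V with he
  set b := Module.finBasis ℂ V with hb
  set u : ℕ → V := fun i => ⟨v i, Submodule.subset_span ⟨i, rfl⟩⟩ with hu
  obtain ⟨C, hC⟩ : ∃ C : ℝ, ∀ i l, ‖b.repr (u i) l‖ ≤ C := by
    exact SEL_bd v M (fun i m => (h (ϕ i)).2.2 m m.2)
  obtain ⟨t₀, ht₀⟩ : ∃ t₀ : Fin e → ℕ, b.det (u ∘ t₀) ≠ 0 := by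
    exact SEL_det v
  obtain ⟨t, htinj, ht⟩ := SEL_span b u C hC t₀ ht₀
  have hinj : Function.Injective (ϕ ∘ t) := hϕ.injective.comp htinj
  refine ⟨Finset.univ.image (ϕ ∘ t), ?_, ?_⟩
  · refine Finset.card_image_le.trans ?_
    rw [Finset.card_univ, Fintype.card_fin]
    refine (Submodule.finrank_le V).trans ?_
    simp
  · intro i₀
    obtain ⟨a, ha1, ha2⟩ := ht i₀
    refine ⟨ϕ i₀, hϕ.id_le i₀, Function.extend (ϕ ∘ t) a 0, ?_, ?_⟩
    · intro m hm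
      rw [Finset.sum_image (fun x _ y _ hxy => hinj hxy)]
      have h1 := congrArg (fun w : V => (w : Fin d → ℂ) ⟨m, hm⟩) ha1
      simp only [hu, hv, Submodule.coe_sum, Submodule.coe_smul, Finset.sum_apply, Pi.smul_apply,
        smul_eq_mul] at h1
      rw [h1]
      refine Finset.sum_congr rfl fun j _ => ?_
      rw [hinj.extend_apply]
      rfl
    · intro j hj
      rw [Finset.mem_image] at hj
      obtain ⟨l, -, rfl⟩ := hj
      rw [hinj.extend_apply]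
      exact ⟨ha2 l, hΛ i₀ (t l)⟩

end XPP
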